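import Mathlib
import Pool.Agent.V5helper62.RM.Pairs
import Pool.Agent.R352.Q.Three

set_option autoImplicit false

/-!
# Near algebraic relations of Euler's constant and of `ζ(3)`

Put `c_1 = γ` and `c_k = ζ(k)` for `k ≥ 2`. For a positive rational number `x` let
`R_1(x) = -(log x + ∫_x^∞ exp (-t) / t dt)`, and for `k ≥ 2` let `R_k(x)` be the number
`(-1)^k / k! * ∫ (∑_j ω^j log t_j)^k exp (-∑_j t_j) dt`, the integral being over
`(0, ∞)^k \ (0, x)^k`, `ω = exp (2 π i / k)`; for `k = 3` this is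
`1/12 * ∫ log (t_1 t_2 / t_3²)³ exp (-t_1 - t_2 - t_3) dt`. The family number `k` consists of `c_k` and of the
numbers `R_k(x)`, `x` positive rational. At most one number of each family is algebraic; if one is, the others and
`e` are algebraically independent (Shidlovskii for `γ`, the starting file `IncompleteZetaValues` of
`MP_48b3e2_nt` for `k ≥ 2`). These are statements on exact relations. Here we prove that they hold at every scale.

A number `t` is near algebraic at the scale `H` (with the degree `D` and the accuracy `δ`) if `|P(t)| < δ` for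
a nonzero integer polynomial `P` of degree at most `D` with coefficients of absolute value at most `H`.

(1) Let `K` be a finite set of integers `k ≥ 1`. Choose a number `u_k` of each of the families `k ∈ K` and finitely
many further numbers `v_1, …, v_n` of these families. For every `D` there are `κ, c > 0` with the following
property, for all `H`: if all `u_k` (`k ∈ K`) are near algebraic at the scale `H`, with the accuracy `c H ^ (-κ)`, then
`|Q(e, v_1, …, v_n)| ≥ c H ^ (-κ)` for all nonzero integer polynomials `Q` in `n + 1` variables of total degree at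
most `D` with coefficients of absolute value at most `H`.

(2) If all `u_k` are algebraic, then `e, v_1, …, v_n` have a polynomial measure of algebraic independence:
`|Q(e, v_1, …, v_n)| ≥ c H ^ (-κ)` for all `H` and `Q`. So, if `ζ(3)` is algebraic, then all numbers `R_3(x)`, and if
`γ` is algebraic, then all numbers `log x + ∫_x^∞ exp (-t) / t dt` have transcendence measures which are
polynomial in the height; if one of the latter numbers is algebraic, then `γ` has such a measure.

(3) `max (|P(u)|, |Q(v)|) ≥ c H ^ (-κ)` for any two different numbers `u`, `v` of one family and all nonzero integer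
polynomials `P`, `Q` of degree at most `D` with coefficients of absolute value at most `H`.

(4) In a finite part of one family all but at most `log log X / log ρ + C` algebraic relations of height at most `X`
are not near: for every `D` there is `κ` such that for `1 < ρ < w / κ` there are at most that many pairs of a
number `v` of the part and an irreducible integer polynomial `P` of degree at most `D`, of height `h ≤ X` and with a
positive leading coefficient such that `|P(v)| ≤ h ^ (-w)`.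

The proof of (1): `e` and the numbers `c_k - R_k(x)` have a polynomial measure of algebraic independence (values of
E-functions), hence also the differences `v_i - u_k`; from near relations `P_k(u_k)`, `Q(e, v_1, …, v_n)` the
numbers `u_k` are eliminated one after the other by resultants in the variable `T` of `P_k(T)` and of
`Q(e, …, T + (v_i - u_k), …)`, which do not vanish identically since a translation is invertible.
-/

namespace Pool.Agent.Results.MP_e48a95_nt.RelativeMeasures

open Filter Topology Set MeasureTheory Polynomial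

/-- the zeta value `ζ(s) = ∑ 1 / n^s` -/
noncomputable def zeta (s : ℕ) : ℝ := ∑' n : ℕ, 1 / ((n : ℝ) + 1) ^ s

/-- the constants `c_1 = γ`, `c_k = ζ(k)` for `k ≥ 2` -/
noncomputable def c (k : ℕ) : ℝ := if k = 1 then Real.eulerMascheroniConstant else zeta k

/-- the exponential integral `∫_x^∞ exp (-t) / t dt` -/
noncomputable def expInt (x : ℚ) : ℝ := ∫ t in Ioi (x : ℝ), Real.exp (-t) / t

/-- `ω = exp (2 π i / k)` -/
noncomputable def root (k : ℕ) : ℂ := Complex.exp (2 * Real.pi * Complex.I / k)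

/-- `(∑_j ω^j log t_j)^k exp (-∑_j t_j)` -/
noncomputable def integrand (k : ℕ) (t : Fin k → ℝ) : ℂ :=
  (∑ j : Fin k, root k ^ (j : ℕ) * (Real.log (t j) : ℂ)) ^ k * ((Real.exp (-∑ j, t j) : ℝ) : ℂ)

/-- `(0, ∞)^k \ (0, x)^k` -/
def rest (k : ℕ) (x : ℝ) : Set (Fin k → ℝ) := {t | (∀ j, 0 < t j) ∧ ∃ j, x ≤ t j}

/-- the integral over the octant outside the cube, as a complex number -/
noncomputable def tailIntegral (k : ℕ) (x : ℚ) : ℂ := (-1) ^ k / k.factorial * ∫ t in rest k x, integrand k t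

/-- `R_k(x)` -/
noncomputable def R (k : ℕ) (x : ℚ) : ℝ := if k = 1 then -(Real.log x + expInt x) else (tailIntegral k x).re

/-- the names of the numbers of the families: `(k, none)` is the name of `c_k`, `(k, some x)` of `R_k(x)` -/
abbrev Name : Type := ℕ × Option ℚ

/-- `k ≥ 1`, and the rational number of the name, if there is one, is positive -/
def Name.Good (p : Name) : Prop := 1 ≤ p.1 ∧ ∀ x : ℚ, p.2 = some x → 0 < x

/-- the number with a name -/
noncomputable def val (p : Name) : ℝ := p.2.elim (c p.1) fun x => R p.1 x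

/-- `|P(t)| < δ` for a nonzero integer polynomial `P` of degree at most `D` with coefficients of absolute value
at most `H` -/
def NearAlgebraic (D : ℕ) (H δ t : ℝ) : Prop :=
  ∃ P : ℤ[X], P ≠ 0 ∧ P.natDegree ≤ D ∧ (∀ j, |((P.coeff j : ℤ) : ℝ)| ≤ H) ∧ |aeval t P| < δ

/-- `|Q(e, v_1, …, v_n)| ≥ δ` for all nonzero integer polynomials `Q` of total degree at most `D` with
coefficients of absolute value at most `H`, where the `v_i` are the numbers with names in `S` -/
def LowerBound (S : Finset Name) (D : ℕ) (H δ : ℝ) : Prop :=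
  ∀ Q : MvPolynomial (Option S) ℤ, Q ≠ 0 → Q.totalDegree ≤ D → (∀ m, |((Q.coeff m : ℤ) : ℝ)| ≤ H) →
    δ ≤ |MvPolynomial.aeval (fun o : Option S => o.elim (Real.exp 1) fun p => val p.1) Q|

/-- the height of a polynomial -/
def height (P : ℤ[X]) : ℕ := P.support.sup fun i => (P.coeff i).natAbs

/-- the near relations of the numbers with names in `S`: irreducible polynomials of degree at most `D`,
with positive leading coefficient and height `h ≤ X`, whose value is at most `h ^ (-w)` -/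
def nearRelations (S : Finset Name) (D : ℕ) (w X : ℝ) : Set (Name × ℤ[X]) :=
  {p | p.1 ∈ S ∧ Irreducible p.2 ∧ p.2.natDegree ≤ D ∧ 0 < p.2.leadingCoeff ∧
    |aeval (val p.1) p.2| ≤ (height p.2 : ℝ) ^ (-w) ∧ (height p.2 : ℝ) ≤ X}

theorem rest_eq (k : ℕ) (x : ℝ) :
    rest k x = Pool.Agent.R352.Q.cube k (Ioi 0) \ Pool.Agent.R352.Q.cube k (Ioo 0 x) := by
  ext t
  simp only [rest, Pool.Agent.R352.Q.cube, Set.mem_sdiff, mem_univ_pi, mem_Ioi, mem_Ioo, Set.mem_setOf_eq]
  constructor
  · rintro ⟨h1, j, h2⟩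
    exact ⟨h1, fun h => absurd (h j).2 (not_lt.2 h2)⟩
  · rintro ⟨h1, h2⟩
    push Not at h2
    obtain ⟨j, hj⟩ := h2
    exact ⟨h1, j, hj (h1 j)⟩

theorem tailIntegral_eq {k : ℕ} (hk : 2 ≤ k) {x : ℚ} (hx : 0 < x) :
    tailIntegral k x = (Pool.Agent.R352.Q.Rk k x : ℂ) := by
  have hx' : (0 : ℝ) < x := by exact_mod_cast hx
  have h : tailIntegral k x = Pool.Agent.R352.Q.NI k
      (Pool.Agent.R352.Q.cube k (Ioi 0) \ Pool.Agent.R352.Q.cube k (Ioo 0 x)) := by
    rw [tailIntegral, rest_eq]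
    rfl
  rw [h, Pool.Agent.R352.Q.NI_diff, Pool.Agent.R352.Q.NI_full hk, Pool.Agent.R352.Q.NI_box hk hx',
    Pool.Agent.R352.Q.Rk]
  push_cast
  rfl

theorem expInt_eq {x : ℚ} : expInt x = Real.exp (-(x : ℝ)) * Pool.Agent.R352.E.gz x := by
  rw [expInt, ← Pool.Agent.R352.E.int_shift (fun t => Real.exp (-t) / t), Pool.Agent.R352.E.gz,
    ← integral_const_mul]
  refine integral_congr_ae (ae_of_all _ fun s => ?_)
  show Real.exp (-((x : ℝ) + s)) / (x + s) = Real.exp (-(x : ℝ)) * (Real.exp (-s) / (x + s))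
  rw [neg_add, Real.exp_add]
  ring

theorem EE_one {x : ℚ} (hx : 0 < x) :
    Pool.Agent.R352.E.EE 1 x = Real.eulerMascheroniConstant + Real.log x + expInt x := by
  have hx' : (0 : ℝ) < x := by exact_mod_cast hx
  rw [Pool.Agent.R352.E.EE_rel 1 hx', Pool.Agent.R352.E.dl_one hx', expInt_eq,
    Pool.Agent.R352.E.NN, Finset.sum_range_succ, Finset.sum_range_one, Pool.Agent.R352.E.mo0,
    Pool.Agent.R352.E.mo1]
  simp
  ring

theorem R_eq {k : ℕ} (hk : 1 ≤ k) {x : ℚ} (hx : 0 < x) : R k x = Pool.Agent.V5helper44.SimZk.RR k x := by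
  rw [R, Pool.Agent.V5helper44.SimZk.RR, Pool.Agent.V5helper44.SimZk.cst, Pool.Agent.V5helper44.SimZk.CC]
  split_ifs with h
  · rw [EE_one hx]
    ring
  · rw [tailIntegral_eq (by omega) hx, Complex.ofReal_re, Pool.Agent.R352.Q.Rk]

theorem val_eq {p : Name} (hp : p.Good) : val p = Pool.Agent.V5helper62.RM.Ph p := by
  obtain ⟨k, o⟩ := p
  obtain ⟨h1, h2⟩ := hp
  cases o with
  | none => rfl
  | some x => exact R_eq h1 (h2 x rfl)

theorem three {x : ℚ} (hx : 0 < x) :
    R 3 x = 1 / 12 * ∫ t in rest 3 x, Real.log (t 0 * t 1 / t 2 ^ 2) ^ 3 * Real.exp (-(t 0 + t 1 + t 2)) := by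
  have hx' : (0 : ℝ) < x := by exact_mod_cast hx
  have h : R 3 x = Pool.Agent.R352.Q.Rk 3 x := by
    rw [R, if_neg (by norm_num), tailIntegral_eq (by norm_num) hx, Complex.ofReal_re]
  rw [rest_eq, Pool.Agent.R352.Q.three_rest hx', h]
  ring

theorem aeval_eq {S : Finset Name} (hS : ∀ p ∈ S, p.Good) :
    (fun o : Option S => o.elim (Real.exp 1) fun p => val p.1) =
    (fun o : Option S => o.elim (Real.exp 1) fun p => Pool.Agent.V5helper62.RM.Ph p.1) := by
  funext o
  cases o with
  | none => rfl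
  | some p => exact val_eq (hS p.1 p.2)

theorem main (K : Finset ℕ) (b : ℕ → Option ℚ) (S : Finset Name) (hK : ∀ k ∈ K, Name.Good (k, b k))
    (hS : ∀ p ∈ S, p.Good ∧ p.1 ∈ K ∧ p.2 ≠ b p.1) :
    Pool.Agent.V5helper62.RM.RelM ((fun k => val (k, b k)) '' (K : Set ℕ))
      (fun o : Option S => o.elim (Real.exp 1) fun p => val p.1) := by
  have h := Pool.Agent.V5helper62.RM.relM_tails K b S (fun k hk => ⟨(hK k hk).1, (hK k hk).2⟩)
    (fun p hp => ⟨(hS p hp).2.1, (hS p hp).2.2, (hS p hp).1.2⟩)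
  rw [aeval_eq fun p hp => (hS p hp).1, show (fun k => val (k, b k)) '' (K : Set ℕ) =
    (fun k => Pool.Agent.V5helper62.RM.Ph (k, b k)) '' (K : Set ℕ) from
      image_congr fun k hk => val_eq (hK k hk)]
  exact h

/-- see the text at the beginning of the file -/
theorem result :
    -- the tails
    ((∀ x : ℚ, R 1 x = -(Real.log x + ∫ t in Ioi (x : ℝ), Real.exp (-t) / t)) ∧
      (∀ k : ℕ, 2 ≤ k → ∀ x : ℚ, 0 < x → tailIntegral k x = (R k x : ℂ)) ∧
      ∀ x : ℚ, 0 < x → R 3 x =
        1 / 12 * ∫ t in rest 3 x, Real.log (t 0 * t 1 / t 2 ^ 2) ^ 3 * Real.exp (-(t 0 + t 1 + t 2))) ∧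
    -- (1), (2)
    (∀ (K : Finset ℕ) (b : ℕ → Option ℚ) (S : Finset Name), (∀ k ∈ K, Name.Good (k, b k)) →
      (∀ p ∈ S, p.Good ∧ p.1 ∈ K ∧ p.2 ≠ b p.1) →
      (∀ D : ℕ, ∃ κ c : ℝ, 0 < κ ∧ 0 < c ∧ ∀ H : ℝ,
        (∀ k ∈ K, NearAlgebraic D H (c * H ^ (-κ)) (val (k, b k))) → LowerBound S D H (c * H ^ (-κ))) ∧
      ((∀ k ∈ K, IsAlgebraic ℚ (val (k, b k))) →
        ∀ D : ℕ, ∃ κ c : ℝ, 0 < κ ∧ 0 < c ∧ ∀ H : ℝ, LowerBound S D H (c * H ^ (-κ)))) ∧
    -- (3)
    (∀ p q : Name, p.Good → q.Good → p.1 = q.1 → p ≠ q → ∀ D : ℕ, ∃ κ c : ℝ, 0 < κ ∧ 0 < c ∧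
      ∀ P Q : ℤ[X], P ≠ 0 → Q ≠ 0 → P.natDegree ≤ D → Q.natDegree ≤ D → ∀ H : ℝ,
        (∀ j, |((P.coeff j : ℤ) : ℝ)| ≤ H) → (∀ j, |((Q.coeff j : ℤ) : ℝ)| ≤ H) →
        c * H ^ (-κ) ≤ max |aeval (val p) P| |aeval (val q) Q|) ∧
    -- (4)
    (∀ (k : ℕ) (S : Finset Name), (∀ p ∈ S, p.Good ∧ p.1 = k) → ∀ D : ℕ, ∃ κ : ℝ, 0 < κ ∧
      ∀ w ρ : ℝ, 1 < ρ → ρ < w / κ → ∃ C : ℝ, ∀ X : ℝ, 3 ≤ X → (nearRelations S D w X).Finite ∧
        ((nearRelations S D w X).ncard : ℝ) ≤ Real.log (Real.log X) / Real.log ρ + C) := by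
  have hJ : ∀ p q : Name, p.Good → q.Good → p.1 = q.1 → p ≠ q → Pool.Agent.R356.JointR (val p) (val q) := by
    intro p q hp hq hpq hne
    rw [val_eq hp, val_eq hq]
    obtain ⟨k, o⟩ := p
    obtain ⟨k', o'⟩ := q
    have hk : k = k' := hpq
    subst hk
    exact Pool.Agent.V5helper62.RM.joint_tails hp.1 o o' hp.2 hq.2 fun h => hne (by rw [h])
  refine ⟨⟨fun x => ?_, fun k hk x hx => ?_, fun x hx => three hx⟩, fun K b S hK hS => ⟨fun D => ?_, fun hal => ?_⟩,
    fun p q hp hq hpq hne D => hJ p q hp hq hpq hne D, fun k S hS D => ?_⟩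
  · rw [R, if_pos rfl, expInt]
  · rw [R, if_neg (by omega), tailIntegral_eq hk hx, Complex.ofReal_re]
  · obtain ⟨κ, cc, hκ, hc, h⟩ := main K b S hK hS D
    refine ⟨κ, cc, hκ, hc, fun H hH Q hQ hQD hQH => h H ?_ Q hQ hQD hQH⟩
    rintro _ ⟨k, hk, rfl⟩
    exact hH k hk
  · have h := (main K b S hK hS).measM (K.finite_toSet.image _) (by
      rintro _ ⟨k, hk, rfl⟩
      exact (IsFractionRing.isAlgebraic_iff ℤ ℚ ℝ).2 (hal k hk))
    intro D
    obtain ⟨κ, cc, hκ, hc, h⟩ := h D
    exact ⟨κ, cc, hκ, hc, fun H Q hQ hQD hQH => h Q hQ hQD H hQH⟩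
  · obtain ⟨κ, hκ, h⟩ := Pool.Agent.R356.sparse_joint S (fun p => val p)
      (fun p hp q hq hne => hJ p q (hS p hp).1 (hS q hq).1 ((hS p hp).2.trans (hS q hq).2.symm) hne) D
    exact ⟨κ, hκ, h⟩

end Pool.Agent.Results.MP_e48a95_nt.RelativeMeasures
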