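import Mathlib
import Pool.Agent.R473.JC.Final
import Pool.Agent.R473.JC.Pairs
import Pool.Agent.Results.MP_e48a95_nt.RelativeMeasures

set_option autoImplicit false

/-!
# Algebraic relations between the digits of `ζ(3)` and between the digits of `ζ(3) / π³`

`S(X) = s_1 X + ⋯ + s_L X^L`, where the `s_i` are the digits of a real number `x` in base `b` after at most `K` of
them have been changed. The `K`-error algebraic complexity `N_b(x) = N_b(x; r, K, L)` is the least `k` such that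
`X^(L+1)` divides `P(X, S(X))` for some nonzero polynomial `P(X, Y)` of degree at most `r` in `Y` and at most `k` in `X`
and some such choice of `S`; for `r = 1` this is essentially the linear complexity. It is bounded for `L → ∞` if
the power series of the digits is algebraic of degree at most `r` over `ℚ(X)`.

We consider sets `Φ` of real numbers of the following kinds: (a) all numbers `t π^j` (`j` an integer) for a real
`t ≠ 0`, for instance `ζ(3)` and `ζ(3) / π³`; (b) all numbers `t + x π`, `x` integral, for a real `t`, for instance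
`γ + x π`; (c) the numbers `c_k` and `R_k(x)`, `x` positive rational, for an integer `k ≥ 1`, where `c_1 = γ`,
`R_1(x) = -(log x + ∫_x^∞ exp (-t) / t dt)`, and for `k ≥ 2` `c_k = ζ(k)` and `R_k(x)` is the tail of the `k`-fold
integral for `ζ(k)` defined in the file `RelativeMeasures`.

(1) In the cases (a), (b) for any two different numbers `u`, `v` of `Φ` and every `D` there are `κ, c > 0` with
`max (|P(u)|, |Q(v)|) ≥ c H ^ (-κ)` for all nonzero integer polynomials `P`, `Q` of degree at most `D` with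
coefficients of absolute value at most `H`. (For (c) this is a part of `RelativeMeasures`.)

(2) In all cases, for any two different numbers `u`, `v` of `Φ` and every `r` there is `A ≥ 1` such that for all bases
`β, β'`, all lengths `L, L'` and all numbers of errors `K, K'`
`min (L log β, L' log β') ≤ A^(K+K'+1) ((N_β(u) + 1) log β + (N_β'(v) + 1) log β')`.

(3) For every finite part `E` of `Φ` and every `r` there is `c > 0` such that for all bases `b`, all `K` and all `L` all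
numbers `u` in `E`, with at most one exception, satisfy `N_b(u) + 1 ≥ c^(K+1) L`.

In particular `c^(K+1) L ≤ N_b(ζ(3)) + N_b(ζ(3) / π³) + 2`, and the same holds for `γ` and `∫_1^∞ exp (-t) / t dt`.
-/

namespace Pool.Agent.Results.MP_e48a95_nt.JointAlgebraicComplexity

open Finset Polynomial Pool.Agent.Results.MP_e48a95_nt.RelativeMeasures

/-- the `i`-th digit of `x` after the point in base `b` -/
noncomputable def digit (b : ℕ) (x : ℝ) (i : ℕ) : ℤ := ⌊x * (b : ℝ) ^ i⌋ % (b : ℤ)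

/-- the polynomial `s_1 X + s_2 X^2 + ⋯ + s_L X^L` -/
noncomputable def seqPoly (s : ℕ → ℤ) (L : ℕ) : ℚ[X] := ∑ l ∈ Icc 1 L, C (s l : ℚ) * X ^ l

/-- `s` is a sequence of base `b` digits, and among the places `1, …, L` at most `K` are such that
`s_l` is not the `l`-th digit of `x` -/
def Near (b : ℕ) (x : ℝ) (K L : ℕ) (s : ℕ → ℤ) : Prop :=
  (∀ l, 0 ≤ s l ∧ s l < b) ∧ {l : ℕ | 1 ≤ l ∧ l ≤ L ∧ s l ≠ digit b x l}.ncard ≤ K

/-- there is a nonzero polynomial `P(X, Y)` over `ℚ` of degree `≤ r` in `Y` and `≤ k` in `X` such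
that `P(X, S(X))` is divisible by `X^(L+1)`, where `S` is the polynomial of the first `L` terms
of `s` -/
def AlgRelation (s : ℕ → ℤ) (r L k : ℕ) : Prop :=
  ∃ P : ℚ[X][X], P ≠ 0 ∧ P.natDegree ≤ r ∧ (∀ j, (P.coeff j).natDegree ≤ k) ∧
    X ^ (L + 1) ∣ P.eval (seqPoly s L)

/-- the `K`-error algebraic complexity of degree `r` of the first `L` digits of `x` in base `b`: the
least `k` such that after the change of at most `K` of the digits there is a relation with
coefficients of degree at most `k` -/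
noncomputable def complexity (b : ℕ) (x : ℝ) (r K L : ℕ) : ℕ :=
  sInf {k : ℕ | ∃ s, Near b x K L s ∧ AlgRelation s r L k}

/-- the joint lower bound for `u` and `v` in degree `r`, with the constant `A`, in all pairs of
bases, for all lengths and all numbers of errors -/
def Bound (A : ℝ) (r : ℕ) (u v : ℝ) : Prop :=
  ∀ b b' : ℕ, 2 ≤ b → 2 ≤ b' → ∀ K K' L L' : ℕ,
    min (L * Real.log b) (L' * Real.log b') ≤
      A ^ (K + K' + 1) * ((complexity b u r K L + 1) * Real.log b +
        (complexity b' v r K' L' + 1) * Real.log b')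

/-- the sets of kind (a) and (b) -/
def Circle (Φ : Set ℝ) : Prop :=
  (∃ t : ℝ, t ≠ 0 ∧ Φ = {u | ∃ j : ℤ, u = t * Real.pi ^ j}) ∨
    ∃ t : ℝ, Φ = {u | ∃ x : ℤ, u = t + x * Real.pi}

/-- the sets of kind (c): the numbers with a name in the family number `k` -/
def Family (Φ : Set ℝ) : Prop := ∃ k : ℕ, 1 ≤ k ∧ Φ = {u | ∃ p : Name, p.Good ∧ p.1 = k ∧ u = val p}

/-- the joint measure -/
def JointMeasure (u v : ℝ) : Prop :=
  ∀ D : ℕ, ∃ κ c : ℝ, 0 < κ ∧ 0 < c ∧ ∀ P Q : ℤ[X], P ≠ 0 → Q ≠ 0 → P.natDegree ≤ D → Q.natDegree ≤ D →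
    ∀ H : ℝ, (∀ j, |((P.coeff j : ℤ) : ℝ)| ≤ H) → (∀ j, |((Q.coeff j : ℤ) : ℝ)| ≤ H) →
      c * H ^ (-κ) ≤ max |aeval u P| |aeval v Q|

theorem circle {Φ : Set ℝ} (h : Circle Φ) {u v : ℝ} (hu : u ∈ Φ) (hv : v ∈ Φ) (huv : u ≠ v) :
    Pool.Agent.R356.JointR u v := by
  rcases h with ⟨t, ht, rfl⟩ | ⟨t, rfl⟩
  · obtain ⟨i, rfl⟩ := hu
    obtain ⟨j, rfl⟩ := hv
    exact Pool.Agent.R473.JC.joint_powers Real.pi Pool.Agent.TH456.TM.measT_pi t ht i j
      (fun hij => huv (by rw [hij]))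
  · obtain ⟨x, rfl⟩ := hu
    obtain ⟨y, rfl⟩ := hv
    have hxy : x ≠ y := fun h => huv (by rw [h])
    have h1 := Pool.Agent.R473.JC.jointR_of_alg Real.pi Pool.Agent.TH456.TM.measT_pi _ _
      (Pool.Agent.R473.JC.alg_lin Real.pi t x 1 y 1 (by
        intro h0
        apply hxy
        linarith))
    have e : ∀ z : ℤ, (z : ℝ) * Real.pi + ((1 : ℤ) : ℝ) * t = t + z * Real.pi := by
      intro z
      push_cast
      ring
    rwa [e, e] at h1

theorem family {Φ : Set ℝ} (h : Family Φ) {u v : ℝ} (hu : u ∈ Φ) (hv : v ∈ Φ) (huv : u ≠ v) :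
    Pool.Agent.R356.JointR u v := by
  obtain ⟨k, hk, rfl⟩ := h
  obtain ⟨p, hp, hpk, rfl⟩ := hu
  obtain ⟨q, hq, hqk, rfl⟩ := hv
  rw [val_eq hp, val_eq hq]
  have hne : p ≠ q := fun h => huv (by rw [h])
  obtain ⟨k1, o⟩ := p
  obtain ⟨k2, o'⟩ := q
  have h1 : k1 = k := hpk
  have h2 : k2 = k := hqk
  subst h1
  subst h2
  exact Pool.Agent.V5helper62.RM.joint_tails hk o o' hp.2 hq.2 fun h => hne (by rw [h])

theorem all {Φ : Set ℝ} (h : Circle Φ ∨ Family Φ) {u v : ℝ} (hu : u ∈ Φ) (hv : v ∈ Φ) (huv : u ≠ v) :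
    Pool.Agent.R356.JointR u v := by
  rcases h with h | h
  · exact circle h hu hv huv
  · exact family h hu hv huv

/-- the case of one base, one length and one number of errors -/
lemma one_base (u v A : ℝ) (hA : 1 ≤ A) (r : ℕ) (h : Bound A r u v) (b : ℕ) (hb : 2 ≤ b)
    (K L : ℕ) : (1 / A ^ 2) ^ (K + 1) * (L : ℝ) ≤
      complexity b u r K L + complexity b v r K L + 2 := by
  have hl : 0 < Real.log b := Real.log_pos (by exact_mod_cast (by omega : 1 < b))
  have hA0 : 0 < A := by linarith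
  have h1 := h b b hb hb K K L L
  rw [min_self] at h1
  have h2 : (L : ℝ) ≤ A ^ (K + K + 1) * (complexity b u r K L + complexity b v r K L + 2) := by
    have h3 : (L : ℝ) * Real.log b ≤
        (A ^ (K + K + 1) * (complexity b u r K L + complexity b v r K L + 2)) * Real.log b := by
      linarith
    exact le_of_mul_le_mul_right h3 hl
  have h4 : A ^ (K + K + 1) ≤ (A ^ 2) ^ (K + 1) := by
    rw [← pow_mul]
    exact pow_le_pow_right₀ hA (by omega)
  rw [div_pow, one_pow, div_mul_eq_mul_div, one_mul, div_le_iff₀ (by positivity)]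
  calc (L : ℝ) ≤ A ^ (K + K + 1) * (complexity b u r K L + complexity b v r K L + 2) := h2
    _ ≤ (A ^ 2) ^ (K + 1) * (complexity b u r K L + complexity b v r K L + 2) :=
        mul_le_mul_of_nonneg_right h4 (by positivity)
    _ = _ := by ring

theorem zeta_ne : zeta 3 ≠ 0 := by
  have h1 : 0 < zeta 3 := by
    have hs : Summable fun n : ℕ => 1 / ((n : ℝ) + 1) ^ 3 := by
      have h2 := (summable_nat_add_iff 1).2 (Real.summable_one_div_nat_pow.2 (by norm_num : 1 < 3))
      simpa using h2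
    exact hs.tsum_pos (fun n => by positivity) 0 (by norm_num)
  exact h1.ne'

theorem part2 {u v : ℝ} (h : Pool.Agent.R356.JointR u v) (r : ℕ) : ∃ A : ℝ, 1 ≤ A ∧ Bound A r u v :=
  Pool.Agent.R473.JC.pair u v h r

theorem part3 (E : Finset ℝ) (h : ∀ u ∈ E, ∀ v ∈ E, u ≠ v → Pool.Agent.R356.JointR u v) (r : ℕ) :
    ∃ c : ℝ, 0 < c ∧ ∀ b : ℕ, 2 ≤ b → ∀ K L : ℕ,
      {u | u ∈ E ∧ (complexity b u r K L : ℝ) + 1 < c ^ (K + 1) * L}.Subsingleton := by
  obtain ⟨A, hA, hfam⟩ := Pool.Agent.R473.JC.family (ι := E) (fun u => u.1)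
    (fun i j hij => h i.1 i.2 j.1 j.2 fun h => hij (Subtype.ext h)) r
  have hA0 : 0 < A := by linarith
  refine ⟨1 / A ^ 2 / 2, by positivity, fun b hb K L u hu v hv => ?_⟩
  by_contra hne
  have h1 := one_base u v A hA r (fun b b' hb hb' K K' L L' =>
    hfam ⟨u, hu.1⟩ ⟨v, hv.1⟩ (fun h => hne (congrArg Subtype.val h)) b b' hb hb' K K' L L') b hb K L
  have h2 := hu.2
  have h3 := hv.2
  have h4 : (1 / A ^ 2 / 2) ^ (K + 1) * (L : ℝ) ≤ (1 / A ^ 2) ^ (K + 1) * L / 2 := by
    rw [div_pow (1 / A ^ 2) 2]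
    have h5 : (2 : ℝ) ≤ 2 ^ (K + 1) := by
      rw [pow_succ]
      have : (1 : ℝ) ≤ 2 ^ K := one_le_pow₀ (by norm_num)
      linarith
    have h6 : 0 ≤ (1 / A ^ 2) ^ (K + 1) * (L : ℝ) := by positivity
    rw [div_mul_eq_mul_div]
    exact div_le_div_of_nonneg_left h6 (by norm_num) h5
  linarith

/-- see the text at the beginning of the file -/
theorem result :
    -- (1)
    (∀ Φ : Set ℝ, Circle Φ → ∀ u ∈ Φ, ∀ v ∈ Φ, u ≠ v → JointMeasure u v) ∧
    -- (2)
    (∀ Φ : Set ℝ, Circle Φ ∨ Family Φ → ∀ u ∈ Φ, ∀ v ∈ Φ, u ≠ v → ∀ r : ℕ, ∃ A : ℝ, 1 ≤ A ∧ Bound A r u v) ∧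
    -- (3)
    (∀ Φ : Set ℝ, Circle Φ ∨ Family Φ → ∀ E : Finset ℝ, (E : Set ℝ) ⊆ Φ → ∀ r : ℕ, ∃ c : ℝ, 0 < c ∧
      ∀ b : ℕ, 2 ≤ b → ∀ K L : ℕ,
        {u | u ∈ E ∧ (complexity b u r K L : ℝ) + 1 < c ^ (K + 1) * L}.Subsingleton) ∧
    -- the three numbers
    (JointMeasure (zeta 3) (zeta 3 / Real.pi ^ 3) ∧
      ∀ r : ℕ, ∃ c : ℝ, 0 < c ∧ ∀ b : ℕ, 2 ≤ b → ∀ K L : ℕ,
        c ^ (K + 1) * L ≤ complexity b (zeta 3) r K L + complexity b (zeta 3 / Real.pi ^ 3) r K L + 2 ∧
        c ^ (K + 1) * L ≤ complexity b Real.eulerMascheroniConstant r K L +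
          complexity b (∫ t in Set.Ioi (1 : ℝ), Real.exp (-t) / t) r K L + 2) := by
  have hz : Pool.Agent.R356.JointR (zeta 3) (zeta 3 / Real.pi ^ 3) := by
    have h := Pool.Agent.R473.JC.joint_powers Real.pi Pool.Agent.TH456.TM.measT_pi (zeta 3) zeta_ne 0 (-3)
      (by norm_num)
    rwa [zpow_zero, mul_one, zpow_neg, show (Real.pi ^ (3 : ℤ)) = Real.pi ^ 3 from zpow_natCast Real.pi 3,
      ← div_eq_mul_inv] at h
  have hg : Pool.Agent.R356.JointR Real.eulerMascheroniConstant (∫ t in Set.Ioi (1 : ℝ), Real.exp (-t) / t) := by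
    obtain ⟨w, hw⟩ : ∃ w : ℝ, w = ∫ t in Set.Ioi (1 : ℝ), Real.exp (-t) / t := ⟨_, rfl⟩
    rw [← hw]
    have hR : R 1 1 = -w := by
      rw [R, if_pos rfl, expInt, hw]
      simp
    have h := Pool.Agent.V5helper62.RM.joint_tails (le_refl 1) none (some 1) (by simp) (by
      intro x hx
      have : (1 : ℚ) = x := Option.some_injective _ hx
      rw [← this]
      exact one_pos) (by simp)
    have e1 : Pool.Agent.V5helper62.RM.Ph (1, none) = Real.eulerMascheroniConstant := by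
      rw [Pool.Agent.V5helper62.RM.Ph]
      simp [Pool.Agent.V5helper44.SimZk.cst]
    have e2 : Pool.Agent.V5helper62.RM.Ph (1, some 1) = -w := by
      rw [← hR, R_eq le_rfl one_pos]
      rfl
    rw [e1, e2] at h
    -- the sign
    intro D
    obtain ⟨κ, cc, hκ, hc, hj⟩ := h D
    refine ⟨κ, cc, hκ, hc, fun P Q hP hQ hPD hQD H hPH hQH => ?_⟩
    have hcomp : ∀ k, |(((Q.comp (-X)).coeff k : ℤ) : ℝ)| = |((Q.coeff k : ℤ) : ℝ)| := by
      intro k
      have e0 : (-X : ℤ[X]) = C (-1) * X := by simp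
      rw [e0, comp_C_mul_X_coeff]
      push_cast
      rw [abs_mul, abs_pow, abs_neg, abs_one, one_pow, mul_one]
    have hdeg : (Q.comp (-X)).natDegree = Q.natDegree := by
      rw [natDegree_comp, natDegree_neg, natDegree_X, mul_one]
    have hne : Q.comp (-X) ≠ 0 := by
      intro h0
      apply hQ
      have h1 : (Q.comp (-X)).comp (-X) = Q := by
        rw [comp_assoc]
        simp
      rw [← h1, h0, zero_comp]
    have h2 := hj P (Q.comp (-X)) hP hne hPD (by rw [hdeg]; exact hQD) H hPH (fun k => by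
      rw [hcomp]; exact hQH k)
    have h3 : aeval (-w) (Q.comp (-X)) = aeval w Q := by
      rw [aeval_comp]
      simp
    rwa [h3] at h2
  refine ⟨fun Φ hΦ u hu v hv huv => circle hΦ hu hv huv, fun Φ hΦ u hu v hv huv r => part2 (all hΦ hu hv huv) r,
    fun Φ hΦ E hE r => part3 E (fun u hu v hv huv => all hΦ (hE hu) (hE hv) huv) r, hz, fun r => ?_⟩
  obtain ⟨A, hA, h1⟩ := part2 hz r
  obtain ⟨A', hA', h2⟩ := part2 hg r
  have hA0 : 0 < A := by linarith
  have hA0' : 0 < A' := by linarith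
  refine ⟨min (1 / A ^ 2) (1 / A' ^ 2), by positivity, fun b hb K L => ⟨?_, ?_⟩⟩
  · refine le_trans ?_ (one_base _ _ A hA r h1 b hb K L)
    exact mul_le_mul_of_nonneg_right (pow_le_pow_left₀ (by positivity) (min_le_left _ _) _) (Nat.cast_nonneg _)
  · refine le_trans ?_ (one_base _ _ A' hA' r h2 b hb K L)
    exact mul_le_mul_of_nonneg_right (pow_le_pow_left₀ (by positivity) (min_le_right _ _) _) (Nat.cast_nonneg _)

end Pool.Agent.Results.MP_e48a95_nt.JointAlgebraicComplexity
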