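import Mathlib
import Pool.Agent.V5helper62.TB.Core
import Pool.Agent.Results.MP_e48a95_nt.RelativeMeasures

set_option autoImplicit false

/-!
# `ζ(3)`, `ζ(3) / π³` and `γ` in several independent bases

For an infinite set `S` of integers and a set `A` of bases let `K_A` be the field generated by all real numbers
with `O(n)` different blocks of `n` digits, `n ∈ S`, in some base of `A`. Let `A_i`, `i ∈ I`, be sets of bases such
that the subgroups of the multiplicative group of `ℚ` generated by `A_i` and `A_j` have a trivial intersection for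
`i ≠ j`; for instance `A_i = {b_i}`, or the set of all bases multiplicatively dependent on `b_i`, with pairwise
multiplicatively independent `b_i`.

Let `c_1 = γ`, `c_k = ζ(k)` for `k ≥ 2`, `R_1(x) = -(log x + ∫_x^∞ exp (-t) / t dt)`, and for `k ≥ 2` let `R_k(x)` be
the tail of the `k`-fold integral for `ζ(k)` defined in the file `RelativeMeasures` (`x` positive rational). The
numbers `c_k`, `R_k(x)` form the family number `k`.

(1) Let `T` be a finite set of numbers, each of which is `π` or the difference of two members of one family. For all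
but at most `|T|` indices `i` all numbers of `T` are transcendental over `K_{A_i}`.

(2) If `π` is transcendental over the field `K`, then, for every real `t ≠ 0` (for instance `ζ(3)`), at most one of the
numbers `t π^k`, `k ∈ ℤ`, is algebraic over `K`, and, for every real `t` (for instance `γ`), at most one of the numbers
`t + x π`, `x` algebraic over `K`. If the difference of two members of a family is transcendental over `K`, then one of
the two is. So by (1), for given positive rational numbers `x` and `y`, for all but at most three indices `i` over the field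
`K_{A_i}` one of `ζ(3)`, `ζ(3) / π³`, one of `γ`, `R_1(x)` and one of `ζ(3)`, `R_3(y)` is transcendental.

(3) Let `b_i`, `i ∈ I`, be finitely many pairwise multiplicatively independent bases and let `(z, u, v)` run through a
finite set `L` of triples, where `z` is as in (1) and algebraic over `ℚ(u, v)`. If there are fewer different numbers
`z` than bases, then for every `C` and all large `n` there is a base `b_i` in which, for every triple of `L`, one of the
numbers `u`, `v` has more than `C n` different blocks of `n` digits.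

(4) Examples. For all multiplicatively independent bases `b`, `c` the largest one of the four numbers of blocks of `n`
digits of `ζ(3)` and `ζ(3) / π³` in the bases `b` and `c`, divided by `n`, tends to infinity, and so does the largest
one of the four numbers of blocks of `γ` and `R_1(x)`. For every `C` and all large `n` in one of the bases `2`, `3`, `5`
one of `ζ(3)`, `ζ(3) / π³` and one of `γ`, `∫_1^∞ exp (-t) / t dt` has more than `C n` blocks of `n` digits.
-/

namespace Pool.Agent.Results.MP_e48a95_nt.SeveralBases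

open Filter Pool.Agent.Results.MP_e48a95_nt.RelativeMeasures

/-- the digit of index `n + 1` after the point in the base `b` expansion of `x` -/
noncomputable def digit (b : ℕ) (x : ℝ) (n : ℕ) : ℤ := ⌊x * (b : ℝ) ^ (n + 1)⌋ % (b : ℤ)

/-- the number of different blocks of `n` consecutive digits (after the point) of `x` in base `b` -/
noncomputable def blocks (b : ℕ) (x : ℝ) (n : ℕ) : ℕ :=
  (Set.range fun i => fun j : Fin n => digit b x (i + j)).ncard

/-- the field generated by all real numbers which in some base `b ∈ A` have at most `C n` different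
blocks of `n` digits for all `n ∈ S`; `b` and `C` may depend on the number. It contains `ℚ`. -/
noncomputable def lowField (S A : Set ℕ) : Subfield ℝ :=
  Subfield.closure {x | ∃ b ∈ A, ∃ C : ℝ, ∀ n ∈ S, (blocks b x n : ℝ) ≤ C * n}

/-- the subgroup of the multiplicative group of `ℚ` generated by `A` -/
def group (A : Set ℕ) : Subgroup ℚˣ := Subgroup.closure {u | ∃ b ∈ A, ((u : ℚˣ) : ℚ) = b}

/-- multiplicatively independent bases -/
def Independent (b c : ℕ) : Prop := ∀ k l : ℕ, b ^ k = c ^ l → k = 0 ∧ l = 0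

/-- `π` and the differences of two different members of a family -/
def special : Set ℝ :=
  {z | z = Real.pi ∨ ∃ p q : Name, p.Good ∧ q.Good ∧ p.1 = q.1 ∧ p ≠ q ∧ z = val p - val q}

/-- `z` is algebraic over the field generated by `u`, `v` over `F` -/
def Linked (F : Type) [Field F] [Algebra F ℝ] (z u v : ℝ) : Prop :=
  IsAlgebraic (IntermediateField.adjoin F ({u, v} : Set ℝ)) z

theorem meas {z : ℝ} (hz : z ∈ special) : Pool.Agent.TH456.TM.MeasT ((z : ℝ) : ℂ) := by
  rcases hz with rfl | ⟨p, q, hp, hq, hpq, hne, rfl⟩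
  · exact Pool.Agent.TH796.AL.Ai.measT_of (Or.inr (Or.inl rfl))
  · rw [val_eq hp, val_eq hq]
    obtain ⟨k, o⟩ := p
    obtain ⟨k', o'⟩ := q
    have hk : k = k' := hpq
    subst hk
    exact Pool.Agent.V5helper62.TB.measT_diff hp.1 o o' hp.2 hq.2 fun h => hne (by rw [h])

theorem pair {z : ℝ} (hz : z ∈ special) {S : Set ℕ} (hS : S.Infinite) {A B : Set ℕ} (hA : ∀ b ∈ A, 2 ≤ b)
    (hB : ∀ b ∈ B, 2 ≤ b) (h : group A ⊓ group B = ⊥) :
    Transcendental (lowField S A) z ∨ Transcendental (lowField S B) z := by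
  rcases Pool.Agent.TH796.AL.Alg.free_pair (Pool.Agent.TH796.AL.Alg.transc_of_measT (meas hz))
    (Pool.Agent.TH796.AL.Ai.not_unumber (meas hz)) hA hB h hS with h | h
  · exact Or.inl h.1
  · exact Or.inr h.1

theorem linked_mul (F : Type) [Field F] [Algebra F ℝ] {t : ℝ} (ht : t ≠ 0) {i j : ℤ} (hij : i ≠ j) :
    Linked F Real.pi (t * Real.pi ^ i) (t * Real.pi ^ j) := by
  have hpi := Real.pi_ne_zero
  set L := IntermediateField.adjoin F ({t * Real.pi ^ i, t * Real.pi ^ j} : Set ℝ) with hL
  have hu : t * Real.pi ^ i ∈ L := IntermediateField.subset_adjoin F _ (Or.inl rfl)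
  have hv : t * Real.pi ^ j ∈ L := IntermediateField.subset_adjoin F _ (Or.inr rfl)
  have h1 : Real.pi ^ (i - j) ∈ L := by
    have h2 := L.div_mem hu hv
    rwa [mul_div_mul_left _ _ ht, ← zpow_sub₀ hpi] at h2
  have h3 : Real.pi ^ (i - j).natAbs ∈ L := by
    rcases Int.natAbs_eq (i - j) with h4 | h4
    · rw [h4, zpow_natCast] at h1
      exact h1
    · rw [h4, zpow_neg, zpow_natCast] at h1
      have h5 := L.inv_mem h1
      rwa [inv_inv] at h5
  have h6 : IsAlgebraic L (Real.pi ^ (i - j).natAbs) := isAlgebraic_algebraMap (⟨_, h3⟩ : L)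
  exact h6.of_pow (by omega)

theorem linked_add (F : Type) [Field F] [Algebra F ℝ] (t : ℝ) {x y : ℝ} (hx : IsAlgebraic F x)
    (hy : IsAlgebraic F y) (hxy : x ≠ y) : Linked F Real.pi (t + x * Real.pi) (t + y * Real.pi) := by
  set L := IntermediateField.adjoin F ({t + x * Real.pi, t + y * Real.pi} : Set ℝ) with hL
  have hu : t + x * Real.pi ∈ L := IntermediateField.subset_adjoin F _ (Or.inl rfl)
  have hv : t + y * Real.pi ∈ L := IntermediateField.subset_adjoin F _ (Or.inr rfl)
  have h1 : IsAlgebraic L ((t + x * Real.pi) - (t + y * Real.pi)) :=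
    isAlgebraic_algebraMap (⟨_, L.sub_mem hu hv⟩ : L)
  have h2 : IsAlgebraic L (x - y) := (hx.tower_top L).sub (hy.tower_top L)
  have h3 : Real.pi = ((t + x * Real.pi) - (t + y * Real.pi)) * (x - y)⁻¹ := by
    rw [eq_mul_inv_iff_mul_eq₀ (sub_ne_zero.2 hxy)]
    ring
  show IsAlgebraic L Real.pi
  rw [h3]
  exact h1.mul h2.inv

theorem linked_sub (F : Type) [Field F] [Algebra F ℝ] (u v : ℝ) : Linked F (u - v) u v :=
  isAlgebraic_algebraMap (⟨_, (IntermediateField.adjoin F ({u, v} : Set ℝ)).sub_mem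
    (IntermediateField.subset_adjoin F _ (Or.inl rfl)) (IntermediateField.subset_adjoin F _ (Or.inr rfl))⟩ :
      IntermediateField.adjoin F ({u, v} : Set ℝ))

theorem linked_plus (F : Type) [Field F] [Algebra F ℝ] (u v : ℝ) : Linked F (u + v) u v :=
  isAlgebraic_algebraMap (⟨_, (IntermediateField.adjoin F ({u, v} : Set ℝ)).add_mem
    (IntermediateField.subset_adjoin F _ (Or.inl rfl)) (IntermediateField.subset_adjoin F _ (Or.inr rfl))⟩ :
      IntermediateField.adjoin F ({u, v} : Set ℝ))

theorem linked_gamma {w : ℝ} (h : R 1 1 = -w) :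
    Linked ℚ (c 1 - R 1 1) Real.eulerMascheroniConstant w := by
  have e : c 1 - R 1 1 = Real.eulerMascheroniConstant + w := by
    rw [h, c, if_pos rfl]
    ring
  rw [e]
  exact linked_plus ℚ _ _

theorem indep_primes {p q : ℕ} (hp : p.Prime) (hq : q.Prime) (hpq : p ≠ q) : Independent p q := by
  intro k l h
  have hk : k = 0 := by
    by_contra hk
    have h1 : p ∣ q ^ l := h ▸ dvd_pow_self p hk
    exact hpq ((Nat.prime_dvd_prime_iff_eq hp hq).1 (hp.dvd_of_dvd_pow h1))
  subst hk
  rw [pow_zero] at h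
  refine ⟨rfl, ?_⟩
  by_contra hl
  have := Nat.one_lt_pow hl hq.one_lt
  omega

theorem digits {I : Type} [Fintype I] {b : I → ℕ} (hb : ∀ i, 2 ≤ b i) (hind : ∀ i j, i ≠ j → Independent (b i) (b j))
    (L : Finset (ℝ × ℝ × ℝ)) (hL : ∀ l ∈ L, l.1 ∈ special ∧ Linked ℚ l.1 l.2.1 l.2.2)
    (hcard : (L.image Prod.fst).card < Fintype.card I) (C : ℝ) :
    ∀ᶠ n : ℕ in atTop, ∃ i, ∀ l ∈ L, C * n < max (blocks (b i) l.2.1 n : ℝ) (blocks (b i) l.2.2 n) := by
  refine Pool.Agent.V5helper62.TB.digits blocks b L (fun l hl => (hL l hl).2) (fun S hS z hz i j hij => ?_) hcard C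
  rw [Finset.mem_image] at hz
  obtain ⟨l, hl, rfl⟩ := hz
  exact pair (hL l hl).1 hS (by simpa using hb i) (by simpa using hb j)
    (Pool.Agent.TH796.AL.Ai.group_inf (hb i) (hb j) (hind i j hij))

theorem two_bases {b c : ℕ} (hb : 2 ≤ b) (hc : 2 ≤ c) (hbc : Independent b c) {z u v : ℝ} (hz : z ∈ special)
    (huv : Linked ℚ z u v) :
    Tendsto (fun n : ℕ => ((max (max (blocks b u n) (blocks b v n)) (max (blocks c u n) (blocks c v n)) : ℕ) : ℝ) / n)
      atTop atTop := by
  rw [tendsto_atTop]
  intro C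
  have h := digits (I := Fin 2) (b := ![b, c]) (by
      intro i
      fin_cases i
      · exact hb
      · exact hc) (by
      intro i j hij
      fin_cases i <;> fin_cases j
      · exact absurd rfl hij
      · exact hbc
      · exact fun k l h => (hbc l k h.symm).symm
      · exact absurd rfl hij) {(z, u, v)} (by
      intro l hl
      rw [Finset.mem_singleton] at hl
      rw [hl]
      exact ⟨hz, huv⟩) (by
      rw [Finset.image_singleton, Finset.card_singleton, Fintype.card_fin]
      norm_num) C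
  filter_upwards [h, eventually_ge_atTop 1] with n hn hn1
  have hn0 : (0 : ℝ) < n := by exact_mod_cast hn1
  rw [le_div_iff₀ hn0]
  obtain ⟨i, hi⟩ := hn
  have h1 := hi _ (Finset.mem_singleton_self _)
  refine h1.le.trans ?_
  have h2 : max (blocks (![b, c] i) u n : ℝ) (blocks (![b, c] i) v n) =
      ((max (blocks (![b, c] i) u n) (blocks (![b, c] i) v n) : ℕ) : ℝ) := by push_cast; rfl
  rw [h2]
  have h3 : max (blocks (![b, c] i) u n) (blocks (![b, c] i) v n) ≤
      max (max (blocks b u n) (blocks b v n)) (max (blocks c u n) (blocks c v n)) := by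
    fin_cases i
    · exact le_max_left _ _
    · exact le_max_right _ _
  exact_mod_cast h3

theorem good_none {k : ℕ} (hk : 1 ≤ k) : Name.Good (k, none) := ⟨hk, by simp⟩

theorem good_some {k : ℕ} (hk : 1 ≤ k) {x : ℚ} (hx : 0 < x) : Name.Good (k, some x) :=
  ⟨hk, fun y hy => by
    have : x = y := Option.some_injective _ hy
    rwa [← this]⟩

theorem special_pi : Real.pi ∈ special := Or.inl rfl

theorem special_cR {k : ℕ} (hk : 1 ≤ k) {x : ℚ} (hx : 0 < x) : c k - R k x ∈ special :=
  Or.inr ⟨(k, none), (k, some x), good_none hk, good_some hk hx, rfl, by simp, rfl⟩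

theorem pi_pow : Linked ℚ Real.pi (zeta 3) (zeta 3 / Real.pi ^ 3) := by
  have hz : zeta 3 ≠ 0 := by
    have h1 : 0 < zeta 3 := by
      have hs : Summable fun n : ℕ => 1 / ((n : ℝ) + 1) ^ 3 := by
        have h2 := (summable_nat_add_iff 1).2 (Real.summable_one_div_nat_pow.2 (by norm_num : 1 < 3))
        simpa using h2
      exact hs.tsum_pos (fun n => by positivity) 0 (by norm_num)
    exact h1.ne'
  have h := linked_mul ℚ hz (show (0 : ℤ) ≠ -3 by norm_num)
  rw [zpow_zero, mul_one, zpow_neg, ← div_eq_mul_inv] at h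
  exact h

theorem three_bases {w : ℝ} (hR : R 1 1 = -w) (C : ℝ) : ∀ᶠ n : ℕ in atTop, ∃ b : ℕ, (b = 2 ∨ b = 3 ∨ b = 5) ∧
    C * n < max (blocks b (zeta 3) n : ℝ) (blocks b (zeta 3 / Real.pi ^ 3) n) ∧
    C * n < max (blocks b Real.eulerMascheroniConstant n : ℝ) (blocks b w n) := by
  classical
  have hl := linked_gamma hR
  obtain ⟨z, hz⟩ : ∃ z : ℝ, z = c 1 - R 1 1 := ⟨_, rfl⟩
  rw [← hz] at hl
  have hzs : z ∈ special := by
    rw [hz]
    exact special_cR le_rfl one_pos
  obtain ⟨a, ha⟩ : ∃ a : ℝ × ℝ × ℝ, a = (Real.pi, zeta 3, zeta 3 / Real.pi ^ 3) := ⟨_, rfl⟩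
  obtain ⟨a', ha'⟩ : ∃ a' : ℝ × ℝ × ℝ, a' = (z, Real.eulerMascheroniConstant, w) := ⟨_, rfl⟩
  have h := digits (I := Fin 3) (b := ![2, 3, 5]) (by
      intro i
      fin_cases i <;> simp) (by
      intro i j hij
      have h2 : Nat.Prime 2 := Nat.prime_two
      have h3 : Nat.Prime 3 := Nat.prime_three
      have h5 : Nat.Prime 5 := Nat.prime_five
      fin_cases i <;> fin_cases j <;>
        first | exact absurd rfl hij | exact indep_primes (by assumption) (by assumption) (by norm_num))
    {a, a'} (by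
      intro l hl'
      rw [Finset.mem_insert, Finset.mem_singleton] at hl'
      rcases hl' with rfl | rfl
      · rw [ha]; exact ⟨special_pi, pi_pow⟩
      · rw [ha']; exact ⟨hzs, hl⟩) (by
      rw [Fintype.card_fin]
      exact lt_of_le_of_lt Finset.card_image_le (lt_of_le_of_lt Finset.card_le_two (by norm_num))) C
  filter_upwards [h] with n hn
  obtain ⟨i, hi⟩ := hn
  have h1 := hi a (Finset.mem_insert_self _ _)
  have h2 := hi a' (Finset.mem_insert_of_mem (Finset.mem_singleton_self _))
  rw [ha] at h1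
  rw [ha'] at h2
  obtain ⟨b, hb⟩ : ∃ b : ℕ, b = ![2, 3, 5] i := ⟨_, rfl⟩
  rw [← hb] at h1 h2
  refine ⟨b, ?_, h1, h2⟩
  rw [hb]
  fin_cases i <;> simp

/-- see the text at the beginning of the file -/
theorem result :
    -- independence of bases
    (∀ b c : ℕ, 2 ≤ b → 2 ≤ c → Independent b c → group {b} ⊓ group {c} = ⊥ ∧
      group {d | 2 ≤ d ∧ ¬ Independent d b} ⊓ group {d | 2 ≤ d ∧ ¬ Independent d c} = ⊥) ∧
    -- (1)
    (∀ S : Set ℕ, S.Infinite → ∀ (I : Type) (A : I → Set ℕ), (∀ i, ∀ b ∈ A i, 2 ≤ b) →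
      (∀ i j, i ≠ j → group (A i) ⊓ group (A j) = ⊥) → ∀ T : Finset ℝ, (∀ z ∈ T, z ∈ special) →
        {i | ∃ z ∈ T, IsAlgebraic (lowField S (A i)) z}.encard ≤ (T.card : ℕ∞)) ∧
    -- (2)
    (∀ K : Subfield ℝ,
      (Transcendental K Real.pi → (∀ t : ℝ, t ≠ 0 → {k : ℤ | IsAlgebraic K (t * Real.pi ^ k)}.Subsingleton) ∧
        ∀ t : ℝ, {x : ℝ | IsAlgebraic K x ∧ IsAlgebraic K (t + x * Real.pi)}.Subsingleton) ∧
      ∀ p q : Name, Transcendental K (val p - val q) → Transcendental K (val p) ∨ Transcendental K (val q)) ∧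
    -- (3)
    (∀ (I : Type) [Fintype I] (b : I → ℕ), (∀ i, 2 ≤ b i) → (∀ i j, i ≠ j → Independent (b i) (b j)) →
      ∀ L : Finset (ℝ × ℝ × ℝ), (∀ l ∈ L, l.1 ∈ special ∧ Linked ℚ l.1 l.2.1 l.2.2) →
        (L.image Prod.fst).card < Fintype.card I → ∀ C : ℝ, ∀ᶠ n : ℕ in atTop, ∃ i, ∀ l ∈ L,
          C * n < max (blocks (b i) l.2.1 n : ℝ) (blocks (b i) l.2.2 n)) ∧
    -- (4)
    (∀ b c : ℕ, 2 ≤ b → 2 ≤ c → Independent b c →
      Tendsto (fun n : ℕ => ((max (max (blocks b (zeta 3) n) (blocks b (zeta 3 / Real.pi ^ 3) n))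
        (max (blocks c (zeta 3) n) (blocks c (zeta 3 / Real.pi ^ 3) n)) : ℕ) : ℝ) / n) atTop atTop ∧
      ∀ x : ℚ, 0 < x → Tendsto (fun n : ℕ => ((max
        (max (blocks b Real.eulerMascheroniConstant n) (blocks b (R 1 x) n))
        (max (blocks c Real.eulerMascheroniConstant n) (blocks c (R 1 x) n)) : ℕ) : ℝ) / n) atTop atTop) ∧
    ∀ C : ℝ, ∀ᶠ n : ℕ in atTop, ∃ b : ℕ, (b = 2 ∨ b = 3 ∨ b = 5) ∧
      C * n < max (blocks b (zeta 3) n : ℝ) (blocks b (zeta 3 / Real.pi ^ 3) n) ∧
      C * n < max (blocks b Real.eulerMascheroniConstant n : ℝ)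
        (blocks b (∫ t in Set.Ioi (1 : ℝ), Real.exp (-t) / t) n) := by
  classical
  refine ⟨fun b c hb hc hbc => ⟨Pool.Agent.TH796.AL.Ai.group_inf hb hc hbc, Pool.Agent.TH796.Fin.cls_inf hb hc hbc⟩,
    fun S hS I A hA hAA T hT => ?_, fun K => ⟨fun hK => ⟨fun t ht i hi j hj => ?_, fun t x hx y hy => ?_⟩,
      fun p q h => ?_⟩, fun I _ b hb hind L hL hcard C => digits hb hind L hL hcard C,
    fun b c hb hc hbc => ⟨two_bases hb hc hbc special_pi pi_pow, fun x hx => ?_⟩, fun C => ?_⟩
  · exact Pool.Agent.V5helper62.TB.bad_le fun z hz i j hij => pair (hT z hz) hS (hA i) (hA j) (hAA i j hij)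
  · by_contra hne
    rcases Pool.Agent.V5helper62.TB.trans_of_linked hK (linked_mul K ht hne) with h | h
    · exact h hi
    · exact h hj
  · by_contra hne
    rcases Pool.Agent.V5helper62.TB.trans_of_linked hK (linked_add K t hx.1 hy.1 hne) with h | h
    · exact h hx.2
    · exact h hy.2
  · exact Pool.Agent.V5helper62.TB.trans_of_linked h (linked_sub K _ _)
  · exact two_bases hb hc hbc (special_cR le_rfl hx) (linked_sub ℚ _ _)
  · have hR : R 1 1 = -(∫ t in Set.Ioi (1 : ℝ), Real.exp (-t) / t) := by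
      rw [R, if_pos rfl, expInt]
      simp
    exact three_bases hR C

end Pool.Agent.Results.MP_e48a95_nt.SeveralBases
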