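import Mathlib
import Pool.Agent.V5helper44.SimZk
import Pool.Agent.R352.Q.Three
import Pool.Agent.Q163.LE.Sim

set_option autoImplicit false

/-!
# `γ`, `ζ(3)` and `ζ(3) / π³` over fields of Liouville numbers extended by `e`

A field `F` of real numbers is simultaneously Liouville if for any finitely many elements
`x_1, …, x_m` of `F` and any `w` there are arbitrarily large `q` with `‖q x_i‖ < q ^ (-w)` for all
`i`. Besides `ℚ` such fields are, for instance, (a) for a sequence `T_n → ∞` the field of all real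
numbers `x` which for one `A` and for all `E` have rational approximations of height at most
`exp (A T_n)` with an error at most `exp (-E T_n)` for all large `n`, and (b) for an infinite set `S` of
integers the field generated by all real numbers `x` whose first `N` digits in some base have a
partition into `o (log N)` phrases (`N ∈ S`), each of which is a digit or a copy of a block which
begins earlier.

Put `c_1 = γ` and `c_k = ζ(k)` for `k ≥ 2`. For a positive rational number `x` let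
`R_1(x) = -(log x + ∫_x^∞ exp (-t) / t dt)`, and for `k ≥ 2` let `R_k(x)` be the number
`(-1)^k / k! * ∫ (∑_j ω^j log t_j)^k exp (-∑_j t_j) dt`, the integral being over
`(0, ∞)^k \ (0, x)^k`, `ω = exp (2 π i / k)`; so
`R_3(x) = 1/12 * ∫ log (t_1 t_2 / t_3²)³ exp (-t_1 - t_2 - t_3) dt`, the integral being over the
points of the positive octant with `max t_i ≥ x`. Let `C_k(x)` for `k ≥ 2` be the same integral over
`(0, x)^k`, and `C_1(x) = γ + log x + ∫_x^∞ exp (-t) / t dt`. Then `c_k = C_k(x) + R_k(x)`.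

Over every simultaneously Liouville field `F`:

(1) `e` and the numbers `C_k(x)` (`k ≥ 1`, `x` positive rational) are algebraically independent.

(2) For `k ≥ 1`, hence for `γ` (`k = 1`) and `ζ(3)` (`k = 3`): at most one of the numbers `c_k`, `R_k(x)` (`x`
positive rational) is algebraic over `F(e)`; if `c_k` is algebraic over `F(e)`, then `e` and the numbers
`R_k(x)` are algebraically independent over `F`.

(3) At most two of the numbers `ζ(3) / π³`, `π` and `R_k(x)` (`k = 3` or `k` even, `x` positive rational)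
are algebraic over `F(e)`. In particular, if `ζ(3) / π³` is algebraic over `F(e)`, then at most one of `π`,
`R_2(x)`, `R_3(x)` (`x` positive rational) is.

(4) Let `y_1, …, y_r` be real numbers and `K` a set of integers `k ≥ 1` for which `c_k` is algebraic
over `F(e, y_1, …, y_r)`. At most `r` of the numbers `y_1, …, y_r` and `R_k(x)` (`k ∈ K`, `x` positive
rational) are algebraic over `F(e)`, and for all finite sets `S` of pairs `(k, x)` (`k ∈ K`, `x` positive
rational) the field `F(e, y_1, …, y_r, R_k(x) : (k, x) ∈ S)` has transcendence degree at least `|S| + 1`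
over `F`.
-/

namespace Pool.Agent.Results.MP_e48a95_nt.TailsOverLiouvilleFields

open Filter Topology Set MeasureTheory Pool.Agent.Q163.LE

/-- the field generated by all real numbers `x` such that, for some base `b`,
`phrases b x N / log N` tends to `0` as `N` tends to infinity in `S` -/
noncomputable def field (S : Set ℕ) : Subfield ℝ := Subfield.closure {x : ℝ | ∃ b : ℕ, 2 ≤ b ∧
  Tendsto (fun N : ℕ => (phrases b x N : ℝ) / Real.log N) (atTop ⊓ 𝓟 S) (𝓝 0)}

/-- the zeta value `ζ(s) = ∑ 1 / n^s` -/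
noncomputable def zeta (s : ℕ) : ℝ := ∑' n : ℕ, 1 / ((n : ℝ) + 1) ^ s

/-- the constants `c_1 = γ`, `c_k = ζ(k)` for `k ≥ 2` -/
noncomputable def c (k : ℕ) : ℝ := if k = 1 then Real.eulerMascheroniConstant else zeta k

/-- the exponential integral `∫_x^∞ exp (-t) / t dt` -/
noncomputable def expInt (x : ℚ) : ℝ := ∫ t in Ioi (x : ℝ), Real.exp (-t) / t

/-- `ω = exp (2 π i / k)` -/
noncomputable def root (k : ℕ) : ℂ := Complex.exp (2 * Real.pi * Complex.I / k)

/-- `(∑_j ω^j log t_j)^k exp (-∑_j t_j)` -/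
noncomputable def integrand (k : ℕ) (t : Fin k → ℝ) : ℂ :=
  (∑ j : Fin k, root k ^ (j : ℕ) * (Real.log (t j) : ℂ)) ^ k * ((Real.exp (-∑ j, t j) : ℝ) : ℂ)

/-- the open cube `(0, x)^k` -/
def cube (k : ℕ) (x : ℝ) : Set (Fin k → ℝ) := {t | ∀ j, 0 < t j ∧ t j < x}

/-- `(0, ∞)^k \ (0, x)^k` -/
def rest (k : ℕ) (x : ℝ) : Set (Fin k → ℝ) := {t | (∀ j, 0 < t j) ∧ ∃ j, x ≤ t j}

/-- the integral over the cube, as a complex number -/
noncomputable def cubeIntegral (k : ℕ) (x : ℚ) : ℂ := (-1) ^ k / k.factorial * ∫ t in cube k x, integrand k t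

/-- the integral over the rest of the octant, as a complex number -/
noncomputable def tailIntegral (k : ℕ) (x : ℚ) : ℂ := (-1) ^ k / k.factorial * ∫ t in rest k x, integrand k t

/-- `C_k(x)` -/
noncomputable def C (k : ℕ) (x : ℚ) : ℝ :=
  if k = 1 then Real.eulerMascheroniConstant + Real.log x + expInt x else (cubeIntegral k x).re

/-- `R_k(x)` -/
noncomputable def R (k : ℕ) (x : ℚ) : ℝ := if k = 1 then -(Real.log x + expInt x) else (tailIntegral k x).re

/-- `x` is algebraic over the field generated by `A` over `F` -/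
def AlgOver (F : Subfield ℝ) (A : Set ℝ) (x : ℝ) : Prop := IsAlgebraic (IntermediateField.adjoin F A) x

/-- the set of names of those of the numbers `y_1, …, y_r` and `R_k(x)` (`k ∈ K`, `x` positive rational)
which are algebraic over `F(e)` -/
def algebraicNames (F : Subfield ℝ) {r : ℕ} (y : Fin r → ℝ) (K : Set ℕ) : Set (Fin r ⊕ (ℕ × ℚ)) :=
  {i | Sum.elim (fun j => AlgOver F {Real.exp 1} (y j))
    (fun p => p.1 ∈ K ∧ 0 < p.2 ∧ AlgOver F {Real.exp 1} (R p.1 p.2)) i}

/-- the set of names of those of the numbers `c_k` and `R_k(x)` (`x` positive rational) which are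
algebraic over `F(e)` -/
def namesOf (F : Subfield ℝ) (k : ℕ) : Set (Option ℚ) :=
  {o | o.elim (AlgOver F {Real.exp 1} (c k)) fun x => 0 < x ∧ AlgOver F {Real.exp 1} (R k x)}

theorem cube_eq (k : ℕ) (x : ℝ) : cube k x = Pool.Agent.R352.Q.cube k (Ioo 0 x) := by
  ext t
  simp [cube, Pool.Agent.R352.Q.cube]

theorem rest_eq (k : ℕ) (x : ℝ) :
    rest k x = Pool.Agent.R352.Q.cube k (Ioi 0) \ Pool.Agent.R352.Q.cube k (Ioo 0 x) := by
  ext t
  simp only [rest, Pool.Agent.R352.Q.cube, Set.mem_sdiff, mem_univ_pi, mem_Ioi, mem_Ioo]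
  constructor
  · rintro ⟨h1, j, h2⟩
    exact ⟨h1, fun h => absurd (h j).2 (not_lt.2 h2)⟩
  · rintro ⟨h1, h2⟩
    push Not at h2
    obtain ⟨j, hj⟩ := h2
    exact ⟨h1, j, hj (h1 j)⟩

theorem cubeIntegral_eq {k : ℕ} (hk : 2 ≤ k) {x : ℚ} (hx : 0 < x) :
    cubeIntegral k x = (Pool.Agent.R352.Q.Zk k x : ℂ) := by
  have hx' : (0 : ℝ) < x := by exact_mod_cast hx
  rw [← Pool.Agent.R352.Q.NI_box hk hx', cubeIntegral, cube_eq]
  rfl

theorem tailIntegral_eq {k : ℕ} (hk : 2 ≤ k) {x : ℚ} (hx : 0 < x) :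
    tailIntegral k x = (Pool.Agent.R352.Q.Rk k x : ℂ) := by
  have hx' : (0 : ℝ) < x := by exact_mod_cast hx
  have h : tailIntegral k x = Pool.Agent.R352.Q.NI k
      (Pool.Agent.R352.Q.cube k (Ioi 0) \ Pool.Agent.R352.Q.cube k (Ioo 0 x)) := by
    rw [tailIntegral, rest_eq]
    rfl
  rw [h, Pool.Agent.R352.Q.NI_diff, Pool.Agent.R352.Q.NI_full hk, Pool.Agent.R352.Q.NI_box hk hx',
    Pool.Agent.R352.Q.Rk]
  push_cast
  rfl

theorem expInt_eq {x : ℚ} (hx : 0 < x) : expInt x = Real.exp (-(x : ℝ)) * Pool.Agent.R352.E.gz x := by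
  rw [expInt, ← Pool.Agent.R352.E.int_shift (fun t => Real.exp (-t) / t), Pool.Agent.R352.E.gz,
    ← integral_const_mul]
  refine integral_congr_ae (ae_of_all _ fun s => ?_)
  show Real.exp (-((x : ℝ) + s)) / (x + s) = Real.exp (-(x : ℝ)) * (Real.exp (-s) / (x + s))
  rw [neg_add, Real.exp_add]
  ring

theorem EE_one {x : ℚ} (hx : 0 < x) :
    Pool.Agent.R352.E.EE 1 x = Real.eulerMascheroniConstant + Real.log x + expInt x := by
  have hx' : (0 : ℝ) < x := by exact_mod_cast hx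
  rw [Pool.Agent.R352.E.EE_rel 1 hx', Pool.Agent.R352.E.dl_one hx', expInt_eq hx,
    Pool.Agent.R352.E.NN, Finset.sum_range_succ, Finset.sum_range_one, Pool.Agent.R352.E.mo0,
    Pool.Agent.R352.E.mo1]
  simp
  ring

theorem C_eq {k : ℕ} (hk : 1 ≤ k) {x : ℚ} (hx : 0 < x) : C k x = Pool.Agent.V5helper44.SimZk.CC k x := by
  rw [C, Pool.Agent.V5helper44.SimZk.CC]
  split_ifs with h
  · exact (EE_one hx).symm
  · rw [cubeIntegral_eq (by omega) hx, Complex.ofReal_re]

theorem c_eq (k : ℕ) : c k = Pool.Agent.V5helper44.SimZk.cst k := rfl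

theorem R_eq {k : ℕ} (hk : 1 ≤ k) {x : ℚ} (hx : 0 < x) : R k x = Pool.Agent.V5helper44.SimZk.RR k x := by
  rw [R, Pool.Agent.V5helper44.SimZk.RR, Pool.Agent.V5helper44.SimZk.cst, Pool.Agent.V5helper44.SimZk.CC]
  split_ifs with h
  · rw [EE_one hx]
    ring
  · rw [tailIntegral_eq (by omega) hx, Complex.ofReal_re, Pool.Agent.R352.Q.Rk]

theorem three {x : ℚ} (hx : 0 < x) :
    R 3 x = 1 / 12 * ∫ t in rest 3 x, Real.log (t 0 * t 1 / t 2 ^ 2) ^ 3 * Real.exp (-(t 0 + t 1 + t 2)) := by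
  have hx' : (0 : ℝ) < x := by exact_mod_cast hx
  have h : R 3 x = Pool.Agent.R352.Q.Rk 3 x := by
    rw [R, if_neg (by norm_num), tailIntegral_eq (by norm_num) hx, Complex.ofReal_re]
  rw [rest_eq, Pool.Agent.R352.Q.three_rest hx', h]
  ring

theorem main {F : Subfield ℝ} (hF : SimLiouville F) {r : ℕ} (y : Fin r → ℝ) (K : Set ℕ)
    (hK : ∀ k ∈ K, 1 ≤ k ∧ AlgOver F ({Real.exp 1} ∪ range y) (c k)) :
    (algebraicNames F y K).encard ≤ (r : ℕ∞) := by
  refine Pool.Agent.R352.E.encard_le_of_finset _ _ fun t ht => ?_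
  refine Pool.Agent.V5helper44.SimZk.countRF hF y t (fun i hi => ?_) (fun p hp => ?_)
  · have h1 := ht hi
    cases i with
    | inl j => exact Pool.Agent.V5helper44.SimMat.mem_cF_iff.2 h1
    | inr p =>
      obtain ⟨h2, h3, h4⟩ := h1
      rw [R_eq (hK _ h2).1 h3] at h4
      exact Pool.Agent.V5helper44.SimMat.mem_cF_iff.2 h4
  · obtain ⟨h2, h3, -⟩ := ht hp
    exact ⟨(hK _ h2).1, h3, Pool.Agent.V5helper44.SimMat.mem_cF_iff.2 (hK _ h2).2⟩

theorem main_trdeg {F : Subfield ℝ} (hF : SimLiouville F) {r : ℕ} (y : Fin r → ℝ) (K : Set ℕ)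
    (hK : ∀ k ∈ K, 1 ≤ k ∧ AlgOver F ({Real.exp 1} ∪ range y) (c k))
    (S : Finset (ℕ × ℚ)) (hS : ∀ p ∈ S, p.1 ∈ K ∧ 0 < p.2) :
    ((S.card + 1 : ℕ) : Cardinal) ≤ Algebra.trdeg F (IntermediateField.adjoin F
      ({Real.exp 1} ∪ range y ∪ (fun p : ℕ × ℚ => R p.1 p.2) '' (S : Set (ℕ × ℚ)))) := by
  have h := Pool.Agent.V5helper44.SimZk.trdegRF hF y S fun p hp =>
    ⟨(hK _ (hS p hp).1).1, (hS p hp).2, Pool.Agent.V5helper44.SimMat.mem_cF_iff.2 (hK _ (hS p hp).1).2⟩
  have e : (fun p : ℕ × ℚ => R p.1 p.2) '' (S : Set (ℕ × ℚ)) =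
      (fun p : ℕ × ℚ => Pool.Agent.V5helper44.SimZk.RR p.1 p.2) '' (S : Set (ℕ × ℚ)) := by
    refine image_congr fun p hp => ?_
    have := hS p hp
    exact R_eq (hK _ this.1).1 this.2
  rw [e]
  exact h

theorem one_count {F : Subfield ℝ} (hF : SimLiouville F) {k : ℕ} (hk : 1 ≤ k) : (namesOf F k).encard ≤ 1 := by
  have h := main hF (fun _ : Fin 1 => c k) {k} (by
    rintro _ rfl
    refine ⟨hk, Pool.Agent.V5helper44.SimMat.mem_cF_iff.1
      (Pool.Agent.R352.E.subset_clF _ (Or.inr (Or.inr ⟨0, rfl⟩)))⟩)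
  let f : Option ℚ → Fin 1 ⊕ (ℕ × ℚ) := fun o => o.elim (Sum.inl 0) fun x => Sum.inr (k, x)
  have hf : Function.Injective f := by
    intro a b hab
    cases a <;> cases b <;> simp_all [f]
  have h2 : f '' namesOf F k ⊆ algebraicNames F (fun _ : Fin 1 => c k) {k} := by
    rintro _ ⟨o, ho, rfl⟩
    cases o with
    | none => exact ho
    | some x => exact ⟨rfl, ho.1, ho.2⟩
  calc (namesOf F k).encard = (f '' namesOf F k).encard := (hf.encard_image _).symm
    _ ≤ _ := encard_le_encard h2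
    _ ≤ 1 := by exact_mod_cast h

theorem one_indep {F : Subfield ℝ} (hF : SimLiouville F) {k : ℕ} (hk : 1 ≤ k)
    (h : AlgOver F {Real.exp 1} (c k)) :
    AlgebraicIndependent F (fun o : Option {x : ℚ // 0 < x} => o.elim (Real.exp 1) fun x => R k x) := by
  have h1 := Pool.Agent.V5helper44.SimZk.AI_RF hF {k} (by
    rintro _ rfl
    exact ⟨hk, Pool.Agent.V5helper44.SimMat.mem_cF_iff.2 h⟩)
  let f : Option {x : ℚ // 0 < x} → Option {p : ℕ × ℚ // p.1 ∈ ({k} : Set ℕ) ∧ 0 < p.2} :=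
    Option.map fun x => ⟨(k, x), rfl, x.2⟩
  have hf : Function.Injective f := by
    refine Option.map_injective ?_
    intro a b hab
    simp only [Subtype.mk.injEq, Prod.mk.injEq, true_and] at hab
    exact Subtype.ext hab
  have h2 := h1.comp f hf
  convert h2 using 1
  ext o
  cases o with
  | none => rfl
  | some x => exact R_eq hk x.2

theorem pi_mem {F : Subfield ℝ} {k : ℕ} (hk : 1 ≤ k) (h : k = 3 ∨ Even k) :
    AlgOver F ({Real.exp 1} ∪ range ![Real.pi, zeta 3 / Real.pi ^ 3]) (c k) := by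
  refine Pool.Agent.V5helper44.SimMat.mem_cF_iff.1 ?_
  set T : Set ℝ := (F : Set ℝ) ∪ ({Real.exp 1} ∪ range ![Real.pi, zeta 3 / Real.pi ^ 3]) with hT
  have hpi : Real.pi ∈ Pool.Agent.R352.E.clF T :=
    Pool.Agent.R352.E.subset_clF _ (Or.inr (Or.inr ⟨0, rfl⟩))
  have hz : zeta 3 / Real.pi ^ 3 ∈ Pool.Agent.R352.E.clF T :=
    Pool.Agent.R352.E.subset_clF _ (Or.inr (Or.inr ⟨1, rfl⟩))
  rcases h with rfl | ⟨j, hj⟩
  · have e : c 3 = zeta 3 / Real.pi ^ 3 * Real.pi ^ 3 := by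
      rw [c, if_neg (by norm_num), div_mul_cancel₀ _ (pow_ne_zero _ Real.pi_ne_zero)]
    rw [e]
    exact (Pool.Agent.R352.E.clF T).mul_mem hz ((Pool.Agent.R352.E.clF T).pow_mem hpi 3)
  · have h2 : k = 2 * j := by omega
    have h3 := Pool.Agent.R352.E.zt_even hpi j (by omega)
    rw [c, if_neg (by omega), h2]
    exact h3

theorem result :
    -- examples of simultaneously Liouville fields
    (∀ (T : ℕ → ℝ) (hT : Tendsto T atTop atTop), SimLiouville (ApField T hT)) ∧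
    (∀ S : Set ℕ, S.Infinite → SimLiouville (field S)) ∧
    -- the decomposition
    ((∀ k : ℕ, 1 ≤ k → ∀ x : ℚ, 0 < x → c k = C k x + R k x) ∧
      (∀ k : ℕ, 2 ≤ k → ∀ x : ℚ, 0 < x → cubeIntegral k x = (C k x : ℂ) ∧ tailIntegral k x = (R k x : ℂ)) ∧
      ∀ x : ℚ, 0 < x → R 3 x =
        1 / 12 * ∫ t in rest 3 x, Real.log (t 0 * t 1 / t 2 ^ 2) ^ 3 * Real.exp (-(t 0 + t 1 + t 2))) ∧
    ∀ F : Subfield ℝ, SimLiouville F →
      -- (1)
      AlgebraicIndependent F (fun o : Option {p : ℕ × ℚ // 1 ≤ p.1 ∧ 0 < p.2} =>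
        o.elim (Real.exp 1) fun p => C p.1.1 p.1.2) ∧
      -- (2)
      (∀ k : ℕ, 1 ≤ k → (namesOf F k).encard ≤ 1 ∧ (AlgOver F {Real.exp 1} (c k) →
        AlgebraicIndependent F (fun o : Option {x : ℚ // 0 < x} => o.elim (Real.exp 1) fun x => R k x))) ∧
      -- (3)
      (algebraicNames F ![Real.pi, zeta 3 / Real.pi ^ 3] {k | 1 ≤ k ∧ (k = 3 ∨ Even k)}).encard ≤ 2 ∧
      -- (4)
      (∀ (r : ℕ) (y : Fin r → ℝ) (K : Set ℕ), (∀ k ∈ K, 1 ≤ k ∧ AlgOver F ({Real.exp 1} ∪ range y) (c k)) →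
        (algebraicNames F y K).encard ≤ (r : ℕ∞) ∧
        ∀ S : Finset (ℕ × ℚ), (∀ p ∈ S, p.1 ∈ K ∧ 0 < p.2) →
          ((S.card + 1 : ℕ) : Cardinal) ≤ Algebra.trdeg F (IntermediateField.adjoin F
            ({Real.exp 1} ∪ range y ∪ (fun p : ℕ × ℚ => R p.1 p.2) '' (S : Set (ℕ × ℚ))))) := by
  refine ⟨sim_apField, sim_lz, ⟨fun k hk x hx => ?_, fun k hk x hx => ⟨?_, ?_⟩, fun x hx => three hx⟩,
    fun F hF => ⟨?_, fun k hk => ⟨one_count hF hk, one_indep hF hk⟩, ?_,
      fun r y K hK => ⟨main hF y K hK, main_trdeg hF y K hK⟩⟩⟩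
  · rw [C_eq hk hx, R_eq hk hx, c_eq, Pool.Agent.V5helper44.SimZk.RR]
    ring
  · rw [C, if_neg (by omega), cubeIntegral_eq hk hx, Complex.ofReal_re]
  · rw [R, if_neg (by omega), tailIntegral_eq hk hx, Complex.ofReal_re]
  · have h := Pool.Agent.V5helper44.SimZk.AI_CF hF
    convert h using 1
    ext o
    cases o with
    | none => rfl
    | some p => exact C_eq p.2.1 p.2.2
  · have h := main hF ![Real.pi, zeta 3 / Real.pi ^ 3] {k | 1 ≤ k ∧ (k = 3 ∨ Even k)} fun k hk =>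
      ⟨hk.1, pi_mem hk.1 hk.2⟩
    exact_mod_cast h

end Pool.Agent.Results.MP_e48a95_nt.TailsOverLiouvilleFields
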